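import Pool.Agent.Lib.H11S.ClosedFrame
import Pool.Agent.Lib.H44D.F4
import Pool.Agent.Lib.H44D.F5
import Pool.Agent.Lib.H69.Hopf.Rec

/-!
# The curvature conditions imply nonpositive sectional curvature
-/

open Finset

set_option autoImplicit false

namespace Pool.Agent.H46U

open Pool.Agent.H69Hopf Pool.Agent.H69Gauss Pool.Agent.H88S Pool.Agent.H11S
  Pool.Agent.H11S.Closed Pool.Agent.H72S H79G Pool.Agent.H44D

variable {N : ℕ}

theorem act_vmv (R : Arr N) (a b c d : Fin N → ℝ) :
    act R (Matrix.vecMulVec a b) (Matrix.vecMulVec c d) = ev R a c b d := by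
  unfold act ev
  refine sum_congr rfl fun i _ => sum_congr rfl fun j _ => sum_congr rfl fun k _ =>
    sum_congr rfl fun l _ => ?_
  simp only [Matrix.vecMulVec_apply]
  ring

theorem ev_same1 {R : Arr N} (hR : IsAlgCurv R) (x z w : Fin N → ℝ) : ev R x x z w = 0 := by
  have h := ev_skew hR x x z w
  linarith

theorem ev_same2 {R : Arr N} (hR : IsAlgCurv R) (x z w : Fin N → ℝ) : ev R z w x x = 0 := by
  rw [ev_pair hR]
  exact ev_same1 hR x z w

theorem ev_skew' {R : Arr N} (hR : IsAlgCurv R) (x y z w : Fin N → ℝ) :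
    ev R x y z w = - ev R x y w z := by
  rw [ev_pair hR, ev_skew hR, ev_pair hR w z x y]

theorem sec_swap {R : Arr N} (hR : IsAlgCurv R) (u v : Fin N → ℝ) : sec R v u = sec R u v := by
  rw [sec_eq_ev, sec_eq_ev, ev_skew hR, ev_skew' hR, neg_neg]

theorem bilin_vmv (a b x : Fin N → ℝ) :
    bilin (Matrix.vecMulVec a b) x x = (∑ i, x i * a i) * ∑ j, x j * b j := by
  unfold bilin
  rw [sum_mul_sum]
  refine sum_congr rfl fun i _ => sum_congr rfl fun j _ => ?_
  rw [Matrix.vecMulVec_apply]
  ring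

theorem bilin_add' (A B : Mat N) (x : Fin N → ℝ) :
    bilin (A + B) x x = bilin A x x + bilin B x x := by
  unfold bilin
  rw [← sum_add_distrib]
  refine sum_congr rfl fun i _ => ?_
  rw [← sum_add_distrib]
  refine sum_congr rfl fun j _ => ?_
  rw [Matrix.add_apply]
  ring

theorem bilin_smul' (s : ℝ) (A : Mat N) (x : Fin N → ℝ) :
    bilin (s • A) x x = s * bilin A x x := by
  unfold bilin
  rw [mul_sum]
  refine sum_congr rfl fun i _ => ?_
  rw [mul_sum]
  refine sum_congr rfl fun j _ => ?_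
  rw [Matrix.smul_apply, smul_eq_mul]
  ring

theorem symm_vv (u : Fin N → ℝ) : (Matrix.vecMulVec u u : Mat N).IsSymm := by
  ext i j
  simp only [Matrix.transpose_apply, Matrix.vecMulVec_apply]
  ring

theorem symm_uv (u v : Fin N → ℝ) :
    (Matrix.vecMulVec u v + Matrix.vecMulVec v u : Mat N).IsSymm := by
  ext i j
  simp only [Matrix.transpose_apply, Matrix.vecMulVec_apply, Matrix.add_apply]
  ring

theorem sec_of_sphere {R : Arr N} (hR : IsAlgCurv R) (h : SphereNonpos R) (u v : Fin N → ℝ) :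
    sec R u v ≤ 0 := by
  have h1 := h 2 (Matrix.vecMulVec u u + Matrix.vecMulVec v v)
    ![Matrix.vecMulVec u u + (-1 : ℝ) • Matrix.vecMulVec v v,
      Matrix.vecMulVec u v + Matrix.vecMulVec v u] ⟨?_, fun x => ?_, fun k => ?_, fun x => ?_⟩
  · rw [Fin.sum_univ_two] at h1
    simp only [Matrix.cons_val_zero, Matrix.cons_val_one, act_add_left, act_add_right,
      act_smul_left, act_smul_right, act_vmv] at h1
    rw [ev_same1 hR u, ev_same1 hR v, ev_same1 hR u v v, ev_same1 hR v u u,
      ← sec_eq_ev, ← sec_eq_ev, sec_swap hR u v] at h1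
    have e1 : ev R u v v u = - sec R u v := by rw [sec_eq_ev]; exact ev_skew' hR _ _ _ _
    have e2 : ev R v u u v = - sec R u v := by rw [sec_eq_ev]; exact ev_skew hR _ _ _ _
    rw [e1, e2] at h1
    linarith
  · exact (symm_vv u).add (symm_vv v)
  · rw [bilin_add', bilin_vmv, bilin_vmv]
    nlinarith [sq_nonneg (∑ i, x i * u i), sq_nonneg (∑ i, x i * v i)]
  · fin_cases k
    · exact (symm_vv u).add ((symm_vv v).smul _)
    · exact symm_uv u v
  · rw [Fin.sum_univ_two]
    simp only [Matrix.cons_val_zero, Matrix.cons_val_one, bilin_add', bilin_smul', bilin_vmv]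
    ring

theorem trace_mul_vmv (G : Mat N) (a b : Fin N → ℝ) :
    (G * Matrix.vecMulVec a b).trace = bilin G b a := by
  unfold bilin
  rw [Matrix.trace]
  refine sum_congr rfl fun i _ => ?_
  rw [Matrix.diag_apply, Matrix.mul_apply]
  refine sum_congr rfl fun j _ => ?_
  rw [Matrix.vecMulVec_apply]
  ring

theorem sec_of_second {G : Mat N} {R : Arr N} (hG : G.PosDef) (hR : IsAlgCurv R)
    (h : ∀ Y : Mat N, Y.IsSymm → (G * Y).trace = 0 → 0 ≤ act R Y Y) (u v : Fin N → ℝ) :
    sec R u v ≤ 0 := by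
  have hs := f4_symm hG.posSemidef
  -- the case of orthogonal vectors
  have key : ∀ x y : Fin N → ℝ, bilin G x y = 0 → sec R x y ≤ 0 := fun x y hxy => by
    have h1 := h (Matrix.vecMulVec x y + Matrix.vecMulVec y x) (symm_uv x y) (by
      rw [mul_add, Matrix.trace_add, trace_mul_vmv, trace_mul_vmv, f4_bilin_symm hs y x, hxy,
        add_zero])
    simp only [act_add_left, act_add_right, act_vmv] at h1
    rw [ev_same1 hR x, ev_same1 hR y] at h1
    have e1 : ev R x y y x = - sec R x y := by rw [sec_eq_ev]; exact ev_skew' hR _ _ _ _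
    have e2 : ev R y x x y = - sec R x y := by rw [sec_eq_ev]; exact ev_skew hR _ _ _ _
    rw [e1, e2] at h1
    linarith
  by_cases hu : u = 0
  · subst hu
    have h2 : sec R 0 v = 0 := by
      unfold sec
      simp
    exact h2.le
  · have hpos : 0 < bilin G u u := by
      rw [f4_dot]
      exact hG.dotProduct_mulVec_pos hu
    set c : ℝ := -(bilin G u v / bilin G u u) with hc
    have hb : bilin G u (v + c • u) = bilin G u v + c * bilin G u u := by
      unfold bilin
      rw [mul_sum, ← sum_add_distrib]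
      refine sum_congr rfl fun i _ => ?_
      rw [mul_sum, ← sum_add_distrib]
      refine sum_congr rfl fun j _ => ?_
      simp only [Pi.add_apply, Pi.smul_apply, smul_eq_mul]
      ring
    have h1 := key u (v + c • u) (by
      rw [hb, hc]
      field_simp
      ring)
    rw [sec_eq_ev, ev_add2, ev_add4, ev_add4, ev_smul2, ev_smul2, ev_smul4, ev_smul4,
      ev_same1 hR u, ev_same1 hR u, ev_same2 hR u u v] at h1
    rw [sec_eq_ev]
    linarith

theorem sec_of_first {R : Arr N} (hR : IsAlgCurv R)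
    (h : ∀ w : Mat N, w.transpose = -w → firstKind R w ≤ 0) (u v : Fin N → ℝ) :
    sec R u v ≤ 0 := by
  have h1 := h (Matrix.vecMulVec u v - Matrix.vecMulVec v u) (by
    ext i j
    simp only [Matrix.transpose_apply, Matrix.vecMulVec_apply, Matrix.sub_apply, Matrix.neg_apply]
    ring)
  have h2 : firstKind R (Matrix.vecMulVec u v - Matrix.vecMulVec v u) =
      ev R u v u v - ev R u v v u - ev R v u u v + ev R v u v u := by
    unfold firstKind ev
    simp only [← sum_sub_distrib, ← sum_add_distrib]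
    refine sum_congr rfl fun i _ => sum_congr rfl fun j _ => sum_congr rfl fun k _ =>
      sum_congr rfl fun l _ => ?_
    simp only [Matrix.vecMulVec_apply, Matrix.sub_apply]
    ring
  rw [h2, ev_skew hR v u u v, ev_skew hR v u v u, ev_skew' hR u v v u] at h1
  rw [sec_eq_ev]
  linarith

theorem sec_of_sum {G : Mat N} {R : Arr N} (hG : G.PosDef) (h : SumNonpos G 0 R)
    (u v : Fin N → ℝ) : sec R u v ≤ 0 := by
  obtain ⟨R₁, R₂, a1, a2, e, h1, h2⟩ := h
  have h3 := sec_of_first a1 h1 u v
  have h4 : sec R₂ u v ≤ 0 := by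
    rcases h2 with h2 | h2
    · rw [zero_smul, add_zero] at h2
      exact sec_of_sphere a2 h2 u v
    · refine sec_of_second hG a2 (fun Y hY hY0 => ?_) u v
      have h5 := h2 Y hY hY0
      rwa [zero_mul] at h5
  rw [e, sec_eq_ev, ev_addR]
  rw [sec_eq_ev] at h3 h4
  linarith

theorem sec_of_near {h : Mat N} {R : Arr N} (hR : IsAlgCurv R) (hh : Near h R)
    (u v : Fin N → ℝ) : sec R u v ≤ 0 := by
  have h1 := near_nonneg (n := 1) (pull_near (![u, v] : Fin (2 * 1) → (Fin N → ℝ)) hh)
  rw [gb1 _ (pull_algCurv _ hR)] at h1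
  have h2 : pull (![u, v] : Fin (2 * 1) → (Fin N → ℝ)) R 0 1 0 1 = sec R u v := rfl
  rw [h2] at h1
  linarith

end Pool.Agent.H46U
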